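import Pool.Agent.W120.WM.Defs2
import Pool.Agent.H382R2.Digamma
import Pool.Agent.W45.WP.Dig

set_option autoImplicit false

/-!
# Project WM2 (helper120), part SHIFT
The bound for the digamma function is the one of `Pool.Agent.W300.AF.HG` (helper300).
-/

namespace Pool.Agent.W18.WM.Shift
open Complex Filter Topology Set
open Pool.Agent.W120.WM (U_SHIFT Wg)

lemma psi_bound : ∃ C : ℝ, 0 < C ∧ ∀ w : ℂ, 1 / 8 ≤ w.re → w.re ≤ 3 / 2 →
    ‖logDeriv Complex.Gamma w‖ ≤ C + Real.log (2 + |w.im|) := by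
  obtain ⟨C0, hC0, h0⟩ := SG.digamma_bound
  have hZ := SG.Dig.Z2_nonneg
  have hg := abs_nonneg Real.eulerMascheroniConstant
  refine ⟨C0 + (|Real.eulerMascheroniConstant| + 8 + 3 * SG.Dig.Z2), by positivity, ?_⟩
  intro w h1 h2
  have him := abs_nonneg w.im
  by_cases hw : 3 / 2 ≤ |w.im|
  · have h3 := h0 w (by linarith) (by rw [abs_of_pos (by linarith)]; linarith)
    have h4 : ‖((Real.log |w.im| : ℝ) : ℂ)‖ = Real.log |w.im| := by
      rw [Complex.norm_real, Real.norm_eq_abs, abs_of_nonneg (Real.log_nonneg (by linarith))]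
    have h5 : Real.log |w.im| ≤ Real.log (2 + |w.im|) :=
      Real.log_le_log (by linarith) (by linarith)
    have h6 : ‖logDeriv Complex.Gamma w‖ ≤ ‖logDeriv Complex.Gamma w - ((Real.log |w.im| : ℝ) : ℂ)‖ +
        ‖((Real.log |w.im| : ℝ) : ℂ)‖ := by
      have := norm_add_le (logDeriv Complex.Gamma w - ((Real.log |w.im| : ℝ) : ℂ))
        ((Real.log |w.im| : ℝ) : ℂ)
      rwa [sub_add_cancel] at this
    rw [h4] at h6
    linarith
  · push Not at hw
    have hre : 0 < w.re := by linarith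
    have hn3 : ‖w‖ ≤ 3 := by
      have := Complex.norm_le_abs_re_add_abs_im w
      rw [abs_of_pos hre] at this
      linarith
    have hn0 : 1 / 8 ≤ ‖w‖ := h1.trans (Complex.re_le_norm w)
    rw [Pool.Agent.W45.WP.logDeriv_Gamma_eq hre]
    have hs : ‖∑' n, Pool.Agent.W45.WP.dg n w‖ ≤ ‖w‖ * SG.Dig.Z2 := by
      unfold SG.Dig.Z2
      rw [← tsum_mul_left]
      exact tsum_of_norm_bounded ((H370.DG.summable_inv_sq.mul_left ‖w‖).hasSum)
        fun n => Pool.Agent.W45.WP.norm_dg_le n hre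
    have h3 : ‖(1 : ℂ) / w‖ ≤ 8 := by
      rw [norm_div, norm_one, div_le_iff₀ (by linarith)]
      linarith
    have h4 : ‖(Real.eulerMascheroniConstant : ℂ)‖ = |Real.eulerMascheroniConstant| := by
      rw [Complex.norm_real, Real.norm_eq_abs]
    have h5 := norm_add_le (-(Real.eulerMascheroniConstant : ℂ) - 1 / w)
      (∑' n, Pool.Agent.W45.WP.dg n w)
    have h6 := norm_sub_le (-(Real.eulerMascheroniConstant : ℂ)) (1 / w)
    rw [norm_neg, h4] at h6
    have h7 : 0 ≤ Real.log (2 + |w.im|) := Real.log_nonneg (by linarith)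
    have h8 := mul_le_mul_of_nonneg_right hn3 hZ
    linarith

lemma half_ne {s : ℂ} (hs : 0 < s.re) (m : ℕ) : s / 2 ≠ -m := by
  intro h
  have h2 : s = -(m : ℂ) * 2 := by
    rw [← h]; ring
  rw [h2] at hs
  simp at hs
  have : (0 : ℝ) ≤ m := Nat.cast_nonneg m
  linarith

lemma GR_deriv {s : ℂ} (hs : 0 < s.re) :
    HasDerivAt Gammaℝ (Gammaℝ s * (-(Real.log Real.pi / 2 : ℝ) + logDeriv Complex.Gamma (s / 2) / 2)) s := by
  have hG : HasDerivAt Complex.Gamma (deriv Complex.Gamma (s / 2)) (s / 2) :=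
    (differentiableAt_Gamma _ (half_ne hs)).hasDerivAt
  have hne : Complex.Gamma (s / 2) ≠ 0 := Gamma_ne_zero (half_ne hs)
  have h1 : HasDerivAt (fun z : ℂ => Complex.Gamma (z / 2)) (deriv Complex.Gamma (s / 2) * (1 / 2)) s :=
    HasDerivAt.comp s hG ((hasDerivAt_id s).div_const 2)
  have h2 : HasDerivAt (fun z : ℂ => (Real.pi : ℂ) ^ (-z / 2))
      ((Real.pi : ℂ) ^ (-s / 2) * Complex.log Real.pi * (-1 / 2)) s := by
    have : HasDerivAt (fun z : ℂ => -z / 2) (-1 / 2) s := ((hasDerivAt_id s).neg).div_const 2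
    exact this.const_cpow (Or.inl (by exact_mod_cast Real.pi_ne_zero))
  have h3 := h2.mul h1
  have e : (fun z : ℂ => (Real.pi : ℂ) ^ (-z / 2)) * (fun z : ℂ => Complex.Gamma (z / 2)) = Gammaℝ := by
    funext z
    simp [Gammaℝ_def]
  have e' : (Real.pi : ℂ) ^ (-s / 2) * Complex.log Real.pi * (-1 / 2) * Complex.Gamma (s / 2) +
      (Real.pi : ℂ) ^ (-s / 2) * (deriv Complex.Gamma (s / 2) * (1 / 2)) =
      Gammaℝ s * (-(Real.log Real.pi / 2 : ℝ) + logDeriv Complex.Gamma (s / 2) / 2) := by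
    rw [Gammaℝ_def, logDeriv_apply, ← Complex.ofReal_log Real.pi_pos.le]
    push_cast
    field_simp
  rw [← e', ← e]
  exact h3

/-- `Gammaℝ` to the right of the critical line -/
lemma shift_gamma {C : ℝ} (hψ : ∀ w : ℂ, 1 / 8 ≤ w.re → w.re ≤ 3 / 2 →
    ‖logDeriv Complex.Gamma w‖ ≤ C + Real.log (2 + |w.im|)) (t δ : ℝ) (h0 : 0 ≤ δ)
    (h1 : δ ≤ 1 / 2) : ‖Gammaℝ (⟨1 / 2 + δ, t⟩ : ℂ)‖ ≤ ‖Gammaℝ (⟨1 / 2, t⟩ : ℂ)‖ *
      Real.exp ((Real.log Real.pi / 2 + (C + Real.log (2 + |t / 2|)) / 2) * δ) := by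
  have hpi : 0 < Real.log Real.pi := Real.log_pos (by linarith [Real.pi_gt_three])
  set K : ℝ := Real.log Real.pi / 2 + (C + Real.log (2 + |t / 2|)) / 2 with hK
  let z : ℝ → ℂ := fun x => (⟨1 / 2 + x, t⟩ : ℂ)
  have hz : ∀ x : ℝ, HasDerivAt z 1 x := by
    intro x
    have e : z = fun x : ℝ => (x : ℂ) + (⟨1 / 2, t⟩ : ℂ) := by
      funext y
      apply Complex.ext <;> simp [z, add_comm]
    rw [e]
    exact (Complex.ofRealCLM.hasDerivAt (x := x)).add_const _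
  have hre : ∀ x : ℝ, 0 ≤ x → 0 < (z x).re := by
    intro x hx
    show 0 < 1 / 2 + x
    linarith
  have hd : ∀ x : ℝ, 0 ≤ x → HasDerivAt (fun x => Gammaℝ (z x))
      (Gammaℝ (z x) * (-(Real.log Real.pi / 2 : ℝ) + logDeriv Complex.Gamma (z x / 2) / 2)) x := by
    intro x hx
    have := HasDerivAt.comp x (GR_deriv (hre x hx)) (hz x)
    rw [mul_one] at this
    exact this
  have key := norm_le_gronwallBound_of_norm_deriv_right_le (f := fun x => Gammaℝ (z x))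
    (f' := fun x => Gammaℝ (z x) * (-(Real.log Real.pi / 2 : ℝ) +
      logDeriv Complex.Gamma (z x / 2) / 2)) (δ := ‖Gammaℝ (z 0)‖) (K := K) (ε := 0)
    (a := 0) (b := δ)
    (fun x hx => (hd x hx.1).continuousAt.continuousWithinAt)
    (fun x hx => (hd x hx.1).hasDerivWithinAt) le_rfl ?_ δ ⟨h0, le_rfl⟩
  · rw [gronwallBound_ε0, sub_zero] at key
    have e0 : z 0 = (⟨1 / 2, t⟩ : ℂ) := by
      apply Complex.ext <;> simp [z]
    rw [e0] at key
    exact key
  · intro x hx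
    have hx1 : x ≤ 1 / 2 := hx.2.le.trans h1
    have hw1 : (z x / 2).re = (1 / 2 + x) / 2 := by simp [z]
    have hw2 : (z x / 2).im = t / 2 := by simp [z]
    have h2 := hψ (z x / 2) (by rw [hw1]; linarith [hx.1]) (by rw [hw1]; linarith [hx.1])
    rw [hw2] at h2
    rw [norm_mul, add_zero, mul_comm]
    refine mul_le_mul_of_nonneg_right ?_ (norm_nonneg _)
    refine (norm_add_le _ _).trans ?_
    rw [norm_neg, Complex.norm_real, Real.norm_eq_abs, abs_of_pos (by positivity)]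
    have h5 : ‖logDeriv Complex.Gamma (z x / 2) / 2‖ = ‖logDeriv Complex.Gamma (z x / 2)‖ / 2 := by
      rw [norm_div]; simp
    rw [h5, hK]
    linarith

theorem main : U_SHIFT := by
  obtain ⟨C, hC, hψ⟩ := psi_bound
  have hpi : 0 < Real.log Real.pi := Real.log_pos (by linarith [Real.pi_gt_three])
  refine ⟨Real.exp (Real.log Real.pi + C), Real.exp_pos _, ?_⟩
  intro δ t h0 h1
  have hs := shift_gamma hψ t δ h0 h1
  have hb : 0 < 3 + |t| := by positivity
  have hl0 : 0 ≤ Real.log (2 + |t / 2|) := Real.log_nonneg (by linarith [abs_nonneg (t / 2)])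
  have hl1 : Real.log (2 + |t / 2|) ≤ Real.log (3 + |t|) := by
    apply Real.log_le_log (by positivity)
    rw [abs_div, abs_two]
    linarith [abs_nonneg t]
  have he : Real.exp ((Real.log Real.pi / 2 + (C + Real.log (2 + |t / 2|)) / 2) * δ) ≤
      Real.exp (Real.log Real.pi + C) * (3 + |t|) ^ δ := by
    rw [Real.rpow_def_of_pos hb, ← Real.exp_add]
    apply Real.exp_le_exp.2
    have e1 : (Real.log Real.pi / 2 + C / 2) * δ ≤ (Real.log Real.pi / 2 + C / 2) * 1 :=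
      mul_le_mul_of_nonneg_left (by linarith) (by positivity)
    have e2 : Real.log (2 + |t / 2|) / 2 * δ ≤ Real.log (3 + |t|) * δ :=
      mul_le_mul_of_nonneg_right (by linarith) h0
    nlinarith
  have hn : ‖(⟨δ - 1 / 2, t⟩ : ℂ)‖ ≤ ‖(⟨0 - 1 / 2, t⟩ : ℂ)‖ := by
    rw [Complex.norm_def, Complex.norm_def]
    apply Real.sqrt_le_sqrt
    simp only [Complex.normSq_mk]
    nlinarith
  unfold Wg
  have e0 : (⟨1 / 2 + 0, t⟩ : ℂ) = (⟨1 / 2, t⟩ : ℂ) := by rw [add_zero]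
  rw [e0]
  calc ‖(⟨δ - 1 / 2, t⟩ : ℂ)‖ * ‖Gammaℝ (⟨1 / 2 + δ, t⟩ : ℂ)‖
      ≤ ‖(⟨0 - 1 / 2, t⟩ : ℂ)‖ * (‖Gammaℝ (⟨1 / 2, t⟩ : ℂ)‖ *
        (Real.exp (Real.log Real.pi + C) * (3 + |t|) ^ δ)) :=
        mul_le_mul hn (hs.trans (mul_le_mul_of_nonneg_left he (norm_nonneg _))) (norm_nonneg _)
          (norm_nonneg _)
    _ = _ := by ring

end Pool.Agent.W18.WM.Shift
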